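import Pool.Agent.P.MP_68720f_al.Ext

namespace Pool.Agent.Results.MP_68720f_al.NotAdmissible

open Pool.Agent.P.MP_68720f_al

universe u

/-- For every infinite field, every `n ≥ 4` and all admissible parameters, `A_n` is simple and
`var(A_n)` contains an anticommutative algebra that is not locally nilpotent. -/
theorem result (F : Type u) [Field F] [Infinite F] (n : ℕ) (hn : 4 ≤ n) (α : F) (γ : ℕ → F)
    (hα : 1 + 4 * α ≠ 0) (hγ : ∀ j, 2 ≤ j → j ≤ n → γ j ≠ 0) :
    IsSimpleAlg F (mul α γ n) ∧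
      ∃ (B : Type u) (_ : NonUnitalNonAssocRing B) (_ : Module F B) (_ : IsScalarTower F B B)
        (_ : SMulCommClass F B B),
        (∀ x y : B, x * y = -(y * x)) ∧ (∀ x : B, x * x = 0) ∧
        (∀ f : FreeMagma ℕ →₀ F, IsIdentity F (mul α γ n) f →
          IsIdentity F (fun x y : B => x * y) f) ∧
        ∃ s : Finset B, ¬ IsNilp (NonUnitalAlgebra.adjoin F (s : Set B) : Set B) := by
  obtain ⟨k, rfl⟩ : ∃ k, n = k + 4 := ⟨n - 4, by omega⟩
  exact ⟨isSimple α γ hα (k + 2) hγ, L2 F, inferInstance, inferInstance, inferInstance,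
    inferInstance, L2.anti, L2.sq,
    fun f hf => L2.identity α γ hα (hγ 2 le_rfl (by omega)) (hγ 4 (by omega) (by omega)) k f hf,
    L2.not_nilp⟩

end Pool.Agent.Results.MP_68720f_al.NotAdmissible
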